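import Pool.Agent.Y738.PE.Stm3
import Mathlib.Analysis.Calculus.Rademacher

/-!
# Almost everywhere differentiability of Lipschitz functions on the interaction space

Owner helper273, for helper738.
-/

set_option autoImplicit false

open scoped BigOperators ComplexConjugate Classical Topology

namespace Pool.Agent.Y273.PE

open Pool.Agent.Y738.PE

theorem t_rad : Pool.Agent.Y738.PE.StmRad := by
  intro d q F C hF
  filter_upwards [hF.ae_differentiableAt] with X hX
  exact ⟨_, hX.hasFDerivAt⟩

end Pool.Agent.Y273.PE
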